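import Pool.Agent.H47.GHK.ROT
import Pool.Agent.H34.GM.TH1
import Pool.Agent.H34.GM.ZLB
import Pool.Agent.H34.GM.HAC
import Pool.Agent.H34.GM.MSR
import Pool.Agent.H34.GM.PWC
import Pool.Agent.H44.GMF.HAR
import Pool.Agent.H34.GU.Defs

/-!
Row WEY of the page ghk: the spherical transform is a symmetric function of the parameters, so that
the parameters of a spherical form may be listed in any order.
-/

namespace Pool.Agent.H47.GHK

open MeasureTheory Real Pool.Agent.H34.GM Pool.Agent.H34.GZ Pool.Agent.H34.GU Pool.Agent.H14.GHK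

theorem rot_det {m : ℕ} {p q : Fin m} (hpq : p ≠ q) (θ : ℝ) : (rot p q θ).det ≠ 0 := by
  intro h
  have h1 := congrArg Matrix.det (rot_orth hpq θ)
  rw [Matrix.det_mul, h, zero_mul, Matrix.det_one] at h1
  exact zero_ne_one h1

/-- one point: the circular means of the power functions -/
theorem wey_pt (hMNQ : T_MNQ) {m n : ℕ} (h : n + 1 < m) (mu : Fin m → ℂ) (z : Mat m)
    (hz : z.det ≠ 0) :
    ∫ θ in (-(π / 2))..(π / 2), pw (mu ∘ Equiv.swap (⟨n, Nat.lt_of_succ_lt h⟩ : Fin m) ⟨n + 1, h⟩)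
      (z * rot ⟨n, Nat.lt_of_succ_lt h⟩ ⟨n + 1, h⟩ θ) =
    ∫ θ in (-(π / 2))..(π / 2), pw mu (z * rot ⟨n, Nat.lt_of_succ_lt h⟩ ⟨n + 1, h⟩ θ) := by
  set p : Fin m := ⟨n, Nat.lt_of_succ_lt h⟩ with hp
  set q : Fin m := ⟨n + 1, h⟩ with hq
  have hpq : p ≠ q := by
    intro h1
    have := congrArg Fin.val h1
    simp [hp, hq] at this
  obtain ⟨hfix, a, b, c, hc, hD, hn2, hn1⟩ := hMNQ m n h z hz
  have hm0 : 0 < mnr z n := mnr_pos hz (Nat.lt_of_succ_lt h).le
  have hqc : ∀ θ, 0 < qc a b c θ := by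
    intro θ
    have h1 : 0 < mnr (z * rot p q θ) (n + 1) :=
      mnr_pos (by rw [Matrix.det_mul]; exact mul_ne_zero hz (rot_det hpq θ)) h.le
    rw [hn1 θ] at h1
    exact (pos_iff_pos_of_mul_pos h1).1 hm0
  set D : ℝ := a * c - b ^ 2 with hDd
  set s : ℂ := (mu q - mu p - 1) / 2 with hs
  -- general formula
  have hgen : ∀ (nu : Fin m → ℂ) (θ : ℝ), pw nu (z * rot p q θ) =
      (∏ j ∈ (Finset.univ.erase p).erase q,
        ((mnr z ((j : ℕ) + 1) / mnr z (j : ℕ) : ℝ) : ℂ) ^ ex nu (j : ℕ)) *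
        ((D : ℂ) ^ ex nu (n + 1) * ((qc a b c θ : ℝ) : ℂ) ^ (ex nu n - ex nu (n + 1))) := by
    intro nu θ
    rw [pw_ex, ← Finset.mul_prod_erase Finset.univ _ (Finset.mem_univ p),
      ← Finset.mul_prod_erase (Finset.univ.erase p) _
        (Finset.mem_erase.mpr ⟨hpq.symm, Finset.mem_univ q⟩)]
    have e1 : ∀ j ∈ (Finset.univ.erase p).erase q,
        ((mnr (z * rot p q θ) ((j : ℕ) + 1) / mnr (z * rot p q θ) (j : ℕ) : ℝ) : ℂ) ^
          ex nu (j : ℕ) = ((mnr z ((j : ℕ) + 1) / mnr z (j : ℕ) : ℝ) : ℂ) ^ ex nu (j : ℕ) := by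
      intro j hj
      have hj1 : j ≠ q := (Finset.mem_erase.mp hj).1
      have hj2 : j ≠ p := (Finset.mem_erase.mp (Finset.mem_erase.mp hj).2).1
      have k1 : (j : ℕ) + 1 ≠ n + 1 := by
        intro hh
        exact hj2 (Fin.ext (by simpa [hp] using hh))
      have k2 : (j : ℕ) ≠ n + 1 := by
        intro hh
        exact hj1 (Fin.ext (by simpa [hq] using hh))
      rw [hfix _ θ k1, hfix _ θ k2]
    rw [Finset.prod_congr rfl e1]
    have hpn : (p : ℕ) = n := rfl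
    have hqn : (q : ℕ) = n + 1 := rfl
    rw [hpn, hqn]
    have k3 : n ≠ n + 1 := by omega
    have k4 : n + 1 + 1 ≠ n + 1 := by omega
    have hn2' : mnr z (n + 1 + 1) = mnr z n * D := hn2
    rw [hfix n θ k3, hfix (n + 1 + 1) θ k4, hn1 θ, hn2']
    have q0 := hqc θ
    have f1 : mnr z n * qc a b c θ / mnr z n = qc a b c θ := by field_simp
    have f2 : mnr z n * D / (mnr z n * qc a b c θ) = D * (qc a b c θ)⁻¹ := by field_simp
    rw [f1, f2, Complex.ofReal_mul, Complex.mul_cpow_ofReal_nonneg hD.le (inv_pos.mpr q0).le]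
    have hq0 : ((qc a b c θ : ℝ) : ℂ) ≠ 0 := Complex.ofReal_ne_zero.mpr q0.ne'
    have f3 : (((qc a b c θ)⁻¹ : ℝ) : ℂ) ^ ex nu (n + 1) =
        (((qc a b c θ : ℝ) : ℂ) ^ ex nu (n + 1))⁻¹ := by
      rw [Complex.ofReal_inv, Complex.inv_cpow]
      rw [Complex.arg_ofReal_of_nonneg q0.le]
      exact Real.pi_pos.ne
    rw [f3, Complex.cpow_sub _ _ hq0]
    ring
  have hexn : ex mu n - ex mu (n + 1) = s := ex_sub mu h
  have hsp : (mu ∘ Equiv.swap p q) p = mu q := by simp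
  have hsq : (mu ∘ Equiv.swap p q) q = mu p := by simp
  have hexn' : ex (mu ∘ Equiv.swap p q) n - ex (mu ∘ Equiv.swap p q) (n + 1) = -1 - s := by
    have h1 := ex_sub (mu ∘ Equiv.swap p q) h
    rw [h1]
    have e1 : (mu ∘ Equiv.swap p q) ⟨n + 1, h⟩ = mu p := hsq
    have e2 : (mu ∘ Equiv.swap p q) ⟨n, by omega⟩ = mu q := hsp
    rw [e1, e2, hs]
    ring
  have hexq : ex (mu ∘ Equiv.swap p q) (n + 1) = ex mu (n + 1) + (s + 1 / 2) := by
    have h1 : ex (mu ∘ Equiv.swap p q) (n + 1) =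
        (-((mu ∘ Equiv.swap p q) q) + (2 * (((n + 1 : ℕ) : ℂ) + 1) - m - 1) / 2) / 2 := by
      unfold ex
      rw [dif_pos h]
    have h2 : ex mu (n + 1) = (-(mu q) + (2 * (((n + 1 : ℕ) : ℂ) + 1) - m - 1) / 2) / 2 := by
      unfold ex
      rw [dif_pos h]
    rw [h1, h2, hsq, hs]
    ring
  have hprod : ∏ j ∈ (Finset.univ.erase p).erase q,
      ((mnr z ((j : ℕ) + 1) / mnr z (j : ℕ) : ℝ) : ℂ) ^ ex (mu ∘ Equiv.swap p q) (j : ℕ) =
      ∏ j ∈ (Finset.univ.erase p).erase q,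
        ((mnr z ((j : ℕ) + 1) / mnr z (j : ℕ) : ℝ) : ℂ) ^ ex mu (j : ℕ) := by
    refine Finset.prod_congr rfl fun j hj => ?_
    have hj1 : j ≠ q := (Finset.mem_erase.mp hj).1
    have hj2 : j ≠ p := (Finset.mem_erase.mp (Finset.mem_erase.mp hj).2).1
    have e1 : ex (mu ∘ Equiv.swap p q) (j : ℕ) = ex mu (j : ℕ) := by
      rw [ex_lt, ex_lt, Function.comp_apply, Equiv.swap_apply_of_ne_of_ne hj2 hj1]
    rw [e1]
  have hI1 : ∀ θ, pw (mu ∘ Equiv.swap p q) (z * rot p q θ) =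
      ((∏ j ∈ (Finset.univ.erase p).erase q,
        ((mnr z ((j : ℕ) + 1) / mnr z (j : ℕ) : ℝ) : ℂ) ^ ex mu (j : ℕ)) *
        (D : ℂ) ^ (ex mu (n + 1) + (s + 1 / 2))) * ((qc a b c θ : ℝ) : ℂ) ^ (-1 - s) := by
    intro θ
    rw [hgen, hprod, hexn', hexq]
    ring
  have hI2 : ∀ θ, pw mu (z * rot p q θ) =
      ((∏ j ∈ (Finset.univ.erase p).erase q,
        ((mnr z ((j : ℕ) + 1) / mnr z (j : ℕ) : ℝ) : ℂ) ^ ex mu (j : ℕ)) *
        (D : ℂ) ^ ex mu (n + 1)) * ((qc a b c θ : ℝ) : ℂ) ^ s := by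
    intro θ
    rw [hgen, hexn]
    ring
  simp only [hI1, hI2]
  rw [intervalIntegral.integral_const_mul, intervalIntegral.integral_const_mul,
    laplace hc hD s, Complex.cpow_add _ _ (Complex.ofReal_ne_zero.mpr hD.ne')]
  ring

/-- a test function against a power function is integrable -/
theorem wey_int {m : ℕ} (hm1 : 1 ≤ m) (mu : Fin m → ℂ) {k : Mat m → ℂ} (hk : Tst m k) :
    Integrable (fun z : V m => k (mt z) * pw mu (mt z)) (hm m) := by
  obtain ⟨c, hc, hs⟩ := hk.supp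
  obtain ⟨M, hM0, hMb⟩ := th1_bd hk
  obtain ⟨P, hP0, hPb⟩ := th1_pwK pf_PWC hm1 mu hc
  have hfin : hm m (th1K m c) < ⊤ := (Pool.Agent.H44.GMF.pf_HAR m hm1).2.2.2 c hc
  have hKm : MeasurableSet (th1K m c) := (th1K_compact m c).measurableSet
  have h1 : Integrable ((th1K m c).indicator fun _ => M * P) (hm m) :=
    (integrable_indicator_iff hKm).2 (integrableOn_const hfin.ne)
  refine h1.mono' ?_ (Filter.Eventually.of_forall fun z => ?_)
  · exact ((hk.cont.comp th1_cmt).measurable.mul (zlb_pw mu)).aestronglyMeasurable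
  · by_cases hw : k (mt z) = 0
    · rw [hw, zero_mul, norm_zero]
      exact Set.indicator_nonneg (fun _ _ => mul_nonneg hM0 hP0) _
    · have hzK : z ∈ th1K m c := hs _ hw
      rw [Set.indicator_of_mem hzK, norm_mul]
      exact mul_le_mul (hMb _) (hPb z hzK) (norm_nonneg _) hM0

/-- a swap of two neighbours -/
theorem wey_adj (hMNQ : T_MNQ) {m n : ℕ} (h : n + 1 < m) (mu : Fin m → ℂ) {k : Mat m → ℂ}
    (hk : Tst m k) :
    ∫ z, k (mt z) * pw (mu ∘ Equiv.swap (⟨n, Nat.lt_of_succ_lt h⟩ : Fin m) ⟨n + 1, h⟩) (mt z)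
      ∂(hm m) = ∫ z, k (mt z) * pw mu (mt z) ∂(hm m) := by
  have hm1 : 1 ≤ m := by omega
  set p : Fin m := ⟨n, Nat.lt_of_succ_lt h⟩ with hp
  set q : Fin m := ⟨n + 1, h⟩ with hq
  have hpq : p ≠ q := by
    intro h1
    have := congrArg Fin.val h1
    simp [hp, hq] at this
  have : SigmaFinite (hm m) := msr_sf
  have hHAR := (Pool.Agent.H44.GMF.pf_HAR m hm1).1
  have hmp : ∀ θ, MeasurePreserving (hac_re (rot p q θ) (rot_det hpq θ)) (hm m) (hm m) :=
    fun θ => hac_mp_of (hac_re (rot p q θ) (rot_det hpq θ)) fun g hg =>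
      (hHAR (rot p q θ) (rot_det hpq θ) g hg).2
  have hkr : ∀ (θ : ℝ) (z : Mat m), k (z * rot p q θ) = k z :=
    fun θ z => hk.right _ (rot_orth hpq θ) z
  -- the average over the circle
  have hav : ∀ nu : Fin m → ℂ, ((π : ℝ) : ℂ) * ∫ z, k (mt z) * pw nu (mt z) ∂(hm m) =
      ∫ z, k (mt z) * (∫ θ in (-(π / 2))..(π / 2), pw nu (mt z * rot p q θ)) ∂(hm m) := by
    intro nu
    have h0 := wey_int hm1 nu hk
    have h1 : ∀ θ : ℝ, ∫ z, k (mt z) * pw nu (mt z * rot p q θ) ∂(hm m) =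
        ∫ z, k (mt z) * pw nu (mt z) ∂(hm m) := by
      intro θ
      rw [← (hmp θ).integral_comp' (fun z : V m => k (mt z) * pw nu (mt z))]
      refine integral_congr_ae (Filter.Eventually.of_forall fun z => ?_)
      show k (mt z) * pw nu (mt z * rot p q θ) = k (mt z * rot p q θ) * pw nu (mt z * rot p q θ)
      rw [hkr]
    have h2 : ∀ θ : ℝ, Integrable (fun z : V m => k (mt z) * pw nu (mt z * rot p q θ)) (hm m) := by
      intro θ
      have h3 := ((hmp θ).integrable_comp_emb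
        (hac_re (rot p q θ) (rot_det hpq θ)).measurableEmbedding).2 h0
      refine h3.congr (Filter.Eventually.of_forall fun z => ?_)
      show k (mt z * rot p q θ) * pw nu (mt z * rot p q θ) = k (mt z) * pw nu (mt z * rot p q θ)
      rw [hkr]
    have h4 : ∀ θ : ℝ, ∫ z, ‖k (mt z) * pw nu (mt z * rot p q θ)‖ ∂(hm m) =
        ∫ z, ‖k (mt z) * pw nu (mt z)‖ ∂(hm m) := by
      intro θ
      rw [← (hmp θ).integral_comp' (fun z : V m => ‖k (mt z) * pw nu (mt z)‖)]
      refine integral_congr_ae (Filter.Eventually.of_forall fun z => ?_)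
      show ‖k (mt z) * pw nu (mt z * rot p q θ)‖ =
        ‖k (mt z * rot p q θ) * pw nu (mt z * rot p q θ)‖
      rw [hkr]
    have hmeas : Measurable (fun x : ℝ × V m => k (mt x.2) * pw nu (mt x.2 * rot p q x.1)) := by
      refine ((hk.cont.comp th1_cmt).measurable.comp measurable_snd).mul ?_
      have hc : Continuous (fun x : ℝ × V m =>
          ((fun i j => (mt x.2 * rot p q x.1) i j) : V m)) := by
        have h5 : Continuous (fun x : ℝ × V m => mt x.2 * rot p q x.1) :=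
          (th1_cmt.comp continuous_snd).matrix_mul ((rot_cont p q).comp continuous_fst)
        exact h5
      exact (zlb_pw nu).comp hc.measurable
    have hI : Integrable (Function.uncurry fun (θ : ℝ) (z : V m) =>
        k (mt z) * pw nu (mt z * rot p q θ))
        ((volume.restrict (Set.Ioc (-(π / 2)) (π / 2))).prod (hm m)) := by
      refine (integrable_prod_iff hmeas.aestronglyMeasurable).2 ⟨?_, ?_⟩
      · exact Filter.Eventually.of_forall fun θ => h2 θ
      · have h6 : (fun θ : ℝ => ∫ z, ‖k (mt z) * pw nu (mt z * rot p q θ)‖ ∂(hm m)) =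
            fun _ => ∫ z, ‖k (mt z) * pw nu (mt z)‖ ∂(hm m) := funext h4
        show Integrable (fun θ : ℝ => ∫ z, ‖k (mt z) * pw nu (mt z * rot p q θ)‖ ∂(hm m)) _
        rw [h6]
        exact integrable_const _
    have h7 := integral_integral_swap hI
    have hle : -(π / 2) ≤ π / 2 := by linarith [Real.pi_pos]
    have h8 : ∫ θ in Set.Ioc (-(π / 2)) (π / 2),
        (∫ z, k (mt z) * pw nu (mt z * rot p q θ) ∂(hm m)) =
        ((π : ℝ) : ℂ) * ∫ z, k (mt z) * pw nu (mt z) ∂(hm m) := by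
      rw [setIntegral_congr_fun measurableSet_Ioc (fun θ _ => h1 θ), setIntegral_const,
        Complex.real_smul]
      congr 2
      rw [measureReal_def, Real.volume_Ioc, ENNReal.toReal_ofReal (by linarith [Real.pi_pos])]
      ring
    rw [← h8, h7]
    refine integral_congr_ae (Filter.Eventually.of_forall fun z => ?_)
    simp only []
    rw [intervalIntegral.integral_of_le hle, integral_const_mul]
  have hpi : ((π : ℝ) : ℂ) ≠ 0 := Complex.ofReal_ne_zero.mpr Real.pi_pos.ne'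
  refine mul_left_cancel₀ hpi ?_
  rw [hav, hav]
  refine integral_congr_ae (Filter.Eventually.of_forall fun z => ?_)
  simp only []
  by_cases hd : (mt z).det = 0
  · have hk0 : k (mt z) = 0 := by
      by_contra hne
      obtain ⟨c, hc, hs⟩ := hk.supp
      have := (hs _ hne).2
      rw [hd, abs_zero] at this
      exact absurd this (not_le.2 (inv_pos.2 hc))
    rw [hk0, zero_mul, zero_mul]
  · rw [wey_pt hMNQ h mu (mt z) hd]

/-- WEY. -/
theorem wey (hMNQ : T_MNQ) : T_WEY := by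
  intro m mu σ k hm1 hk
  obtain ⟨n, rfl⟩ : ∃ n, m = n + 1 := ⟨m - 1, by omega⟩
  have hσ : σ ∈ Submonoid.closure (Set.range fun i : Fin n => Equiv.swap i.castSucc i.succ) := by
    rw [Equiv.Perm.mclosure_swap_castSucc_succ]
    exact Submonoid.mem_top σ
  refine Submonoid.closure_induction (motive := fun (τ : Equiv.Perm (Fin (n + 1))) _ =>
    ∀ mu : Fin (n + 1) → ℂ, ∫ z, k (mt z) * pw (mu ∘ τ) (mt z) ∂(hm (n + 1)) =
      ∫ z, k (mt z) * pw mu (mt z) ∂(hm (n + 1))) ?_ ?_ ?_ hσ mu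
  · rintro _ ⟨i, rfl⟩ nu
    exact wey_adj hMNQ (Nat.succ_lt_succ i.2) nu hk
  · intro nu
    rfl
  · intro a b _ _ ha hb nu
    have h1 := hb (nu ∘ a)
    rw [ha nu] at h1
    exact h1

/-- a spherical form with its parameters in another order -/
theorem wey_eig (hMNQ : T_MNQ) {m N : ℕ} [NeZero N] (hm1 : 1 ≤ m) {T : ℕ → Finset (ZM m)}
    {F : Mat m → VN m N → ℂ} {lam : ℕ → ℂ} {mu : Fin m → ℂ} (hF : EigU m N T F lam mu)
    (σ : Equiv.Perm (Fin m)) : EigU m N T F lam (mu ∘ σ) where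
  cont := hF.cont
  supp := hF.supp
  auto := hF.auto
  scal := hF.scal
  orth := hF.orth
  hecke := hF.hecke
  tr0 := by
    have h := hF.tr0
    rwa [← Equiv.sum_comp σ mu] at h
  arch := fun k hk g x hg => by
    rw [hF.arch k hk g x hg, wey hMNQ m mu σ k hm1 hk]
  bdd := hF.bdd

/-- the parameters may be listed with increasing imaginary parts -/
theorem wey_mono (hMNQ : T_MNQ) {m N : ℕ} [NeZero N] (hm1 : 1 ≤ m) {T : ℕ → Finset (ZM m)}
    {F : Mat m → VN m N → ℂ} {lam : ℕ → ℂ} {mu : Fin m → ℂ} (hF : EigU m N T F lam mu) :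
    ∃ σ : Equiv.Perm (Fin m), EigU m N T F lam (mu ∘ σ) ∧
      Monotone (fun j => ((mu ∘ σ) j).im) :=
  ⟨Tuple.sort (fun j => (mu j).im), wey_eig hMNQ hm1 hF _,
    Tuple.monotone_sort (fun j => (mu j).im)⟩

end Pool.Agent.H47.GHK
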