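import Pool.Agent.H47.GHK.LEG
import Pool.Agent.H14.GHK.PWR

/-!
Row WEY of the page ghk, part 2: the rotations in the plane of two coordinates and the targets.
-/

namespace Pool.Agent.H47.GHK

open MeasureTheory Real Pool.Agent.H34.GM Pool.Agent.H14.GHK

/-- the rotation in the plane of the coordinates `p`, `q` -/
noncomputable def rot {m : ℕ} (p q : Fin m) (θ : ℝ) : Mat m := Matrix.of fun a b =>
  if b = p then (if a = p then cos θ else if a = q then sin θ else 0)
  else if b = q then (if a = p then -sin θ else if a = q then cos θ else 0)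
  else if a = b then 1 else 0

/-- the columns of `z * rot p q θ` -/
theorem mul_rot {m : ℕ} {p q : Fin m} (hpq : p ≠ q) (z : Mat m) (θ : ℝ) (a b : Fin m) :
    (z * rot p q θ) a b = if b = p then cos θ * z a p + sin θ * z a q
      else if b = q then -sin θ * z a p + cos θ * z a q else z a b := by
  rw [Matrix.mul_apply]
  by_cases hb : b = p
  · rw [if_pos hb]
    have h1 : ∀ x ∈ Finset.univ, x ≠ p ∧ x ≠ q → z a x * rot p q θ x b = 0 := by
      intro x _ hx
      simp [rot, hb, hx.1, hx.2]
    rw [← Finset.sum_subset (Finset.subset_univ ({p, q} : Finset (Fin m)))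
      (fun x hx hx2 => h1 x hx (by simpa [not_or] using hx2)), Finset.sum_pair hpq]
    simp [rot, hb, hpq.symm]
    ring
  · rw [if_neg hb]
    by_cases hb2 : b = q
    · rw [if_pos hb2]
      have h1 : ∀ x ∈ Finset.univ, x ≠ p ∧ x ≠ q → z a x * rot p q θ x b = 0 := by
        intro x _ hx
        simp [rot, hb2, hpq.symm, hx.1, hx.2]
      rw [← Finset.sum_subset (Finset.subset_univ ({p, q} : Finset (Fin m)))
        (fun x hx hx2 => h1 x hx (by simpa [not_or] using hx2)), Finset.sum_pair hpq]
      simp [rot, hb2, hpq.symm]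
      ring
    · rw [if_neg hb2, Finset.sum_eq_single b]
      · simp [rot, hb, hb2]
      · intro x _ hx
        simp [rot, hb, hb2, hx]
      · intro h
        exact absurd (Finset.mem_univ b) h

theorem rot_mul_rot {m : ℕ} {p q : Fin m} (hpq : p ≠ q) (θ : ℝ) :
    rot p q θ * rot p q (-θ) = 1 := by
  ext a b
  rw [mul_rot hpq]
  have hc := Real.sin_sq_add_cos_sq θ
  by_cases hb : b = p
  · subst hb
    by_cases ha : a = b
    · subst ha
      simp [rot, hpq.symm]
      nlinarith
    · by_cases ha2 : a = q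
      · subst ha2
        simp [rot, hpq.symm]
        ring
      · simp [rot, ha, ha2, hpq.symm]
  · by_cases hb2 : b = q
    · subst hb2
      by_cases ha : a = p
      · subst ha
        simp [rot, hpq.symm, hpq]
        ring
      · by_cases ha2 : a = b
        · subst ha2
          simp [rot, hpq.symm]
          nlinarith
        · simp [rot, ha, ha2, hpq.symm]
    · simp [rot, hb, hb2, Matrix.one_apply]

theorem rot_tr {m : ℕ} {p q : Fin m} (hpq : p ≠ q) (θ : ℝ) :
    (rot p q θ).transpose = rot p q (-θ) := by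
  ext a b
  rw [Matrix.transpose_apply]
  by_cases hb : b = p
  · subst hb
    by_cases ha : a = b
    · subst ha
      simp [rot]
    · by_cases ha2 : a = q
      · subst ha2
        simp [rot, hpq.symm]
      · simp [rot, ha, ha2, Ne.symm ha]
  · by_cases hb2 : b = q
    · subst hb2
      by_cases ha : a = p
      · subst ha
        simp [rot, hpq.symm]
      · by_cases ha2 : a = b
        · subst ha2
          simp [rot, hpq.symm]
        · simp [rot, ha, ha2, hpq.symm, Ne.symm ha2]
    · by_cases ha : a = p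
      · subst ha
        simp [rot, hb, hb2, Ne.symm hb]
      · by_cases ha2 : a = q
        · subst ha2
          simp [rot, hpq.symm, hb, hb2, Ne.symm hb2]
        · simp only [rot, Matrix.of_apply, if_neg ha, if_neg ha2, if_neg hb, if_neg hb2]
          by_cases hab : a = b
          · simp [hab]
          · simp [hab, Ne.symm hab]

theorem rot_orth {m : ℕ} {p q : Fin m} (hpq : p ≠ q) (θ : ℝ) :
    rot p q θ * (rot p q θ).transpose = 1 := by
  rw [rot_tr hpq, rot_mul_rot hpq]

theorem rot_orth' {m : ℕ} {p q : Fin m} (hpq : p ≠ q) (θ : ℝ) :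
    (rot p q θ).transpose * rot p q θ = 1 := by
  have h := rot_mul_rot hpq (-θ)
  rwa [neg_neg, ← rot_tr hpq] at h

theorem rot_cont {m : ℕ} (p q : Fin m) : Continuous (fun θ : ℝ => rot p q θ) := by
  refine continuous_matrix fun a b => ?_
  simp only [rot, Matrix.of_apply]
  split_ifs <;> fun_prop

/-- the minors under a rotation of two neighbouring columns: all but one are fixed, and the
remaining one is a positive quadratic form on the circle -/
def T_MNQ : Prop := ∀ (m n : ℕ) (h : n + 1 < m) (z : Mat m), z.det ≠ 0 →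
  (∀ (i : ℕ) (θ : ℝ), i ≠ n + 1 →
    mnr (z * rot ⟨n, Nat.lt_of_succ_lt h⟩ ⟨n + 1, h⟩ θ) i = mnr z i) ∧
  ∃ a b c : ℝ, 0 < c ∧ 0 < a * c - b ^ 2 ∧ mnr z (n + 2) = mnr z n * (a * c - b ^ 2) ∧
    ∀ θ : ℝ, mnr (z * rot ⟨n, Nat.lt_of_succ_lt h⟩ ⟨n + 1, h⟩ θ) (n + 1) = mnr z n * qc a b c θ

/-- Weyl invariance of the spherical transform -/
def T_WEY : Prop := ∀ (m : ℕ) (mu : Fin m → ℂ) (σ : Equiv.Perm (Fin m)) (k : Mat m → ℂ),
  1 ≤ m → Tst m k → ∫ z, k (mt z) * pw (mu ∘ σ) (mt z) ∂(hm m) =
    ∫ z, k (mt z) * pw mu (mt z) ∂(hm m)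

end Pool.Agent.H47.GHK
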