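import Pool.Agent.H47.GHK.WEQ
import Pool.Agent.H5.GHK.MNQ

/-!
Board ghk: the Weyl invariance of the spherical transform, without hypotheses.
-/

set_option autoImplicit false

namespace Pool.Agent.H47.GHK

open MeasureTheory Pool.Agent.H34.GM Pool.Agent.H34.GZ Pool.Agent.H34.GU Pool.Agent.H68.GHK

theorem c_WEY : T_WEY := wey Pool.Agent.H5.GHK.pf_MNQ

theorem c_cusp {m N : ℕ} [NeZero N] (hm1 : 1 ≤ m) {T : ℕ → Finset (ZM m)}
    {F : Mat m → VN m N → ℂ} {lam : ℕ → ℂ} {mu : Fin m → ℂ} (hF : CuspU m N T F lam mu)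
    (σ : Equiv.Perm (Fin m)) : CuspU m N T F lam (mu ∘ σ) :=
  wey_cusp Pool.Agent.H5.GHK.pf_MNQ hm1 hF σ

theorem c_GBQ (h : T_GBP) : T_GBQ := gbq Pool.Agent.H5.GHK.pf_MNQ h

end Pool.Agent.H47.GHK
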