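import Pool.Agent.H47.GHK.WEY
import Pool.Agent.H68.GHK.Targets

/-!
Board ghk: no order of the parameters. The Plancherel density is symmetric, and the parameters of a
spherical form may be listed in any order; so the final inequality holds without the hypothesis that
the imaginary parts are increasing.
-/

set_option autoImplicit false

namespace Pool.Agent.H47.GHK

open MeasureTheory Pool.Agent.H34.GM Pool.Agent.H34.GZ Pool.Agent.H34.GU Pool.Agent.H34.GA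
  Pool.Agent.H68.GHY Pool.Agent.H34.GHY Pool.Agent.H68.GHK

theorem wt_pos {m : ℕ} (mu : Fin m → ℂ) : 0 < Wt mu := by
  unfold Wt
  refine Finset.prod_pos fun i _ => Finset.prod_pos fun j _ => ?_
  split_ifs
  · positivity
  · exact one_pos

theorem wt_sq {m : ℕ} (mu : Fin m → ℂ) :
    Wt mu ^ 2 = ∏ i : Fin m, ∏ j : Fin m, (1 + |(mu j).im - (mu i).im|) := by
  have h1 : Wt mu = ∏ i : Fin m, ∏ j : Fin m,
      if j < i then 1 + |(mu j).im - (mu i).im| else 1 := by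
    unfold Wt
    rw [Finset.prod_comm]
    refine Finset.prod_congr rfl fun i _ => Finset.prod_congr rfl fun j _ => ?_
    rw [abs_sub_comm]
  have h2 : Wt mu ^ 2 = (∏ i : Fin m, ∏ j : Fin m,
      if j < i then 1 + |(mu j).im - (mu i).im| else 1) * Wt mu := by
    rw [← h1, sq]
  rw [h2]
  unfold Wt
  rw [← Finset.prod_mul_distrib]
  refine Finset.prod_congr rfl fun i _ => ?_
  rw [← Finset.prod_mul_distrib]
  refine Finset.prod_congr rfl fun j _ => ?_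
  rcases lt_trichotomy i j with h | h | h
  · rw [if_neg (not_lt.mpr h.le), if_pos h, one_mul]
  · subst h
    simp
  · rw [if_pos h, if_neg (not_lt.mpr h.le), mul_one]

theorem wt_perm {m : ℕ} (mu : Fin m → ℂ) (σ : Equiv.Perm (Fin m)) : Wt (mu ∘ σ) = Wt mu := by
  have h1 : Wt (mu ∘ σ) ^ 2 = Wt mu ^ 2 := by
    rw [wt_sq, wt_sq]
    rw [← Equiv.prod_comp σ (fun i => ∏ j : Fin m, (1 + |(mu j).im - (mu i).im|))]
    refine Finset.prod_congr rfl fun i _ => ?_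
    exact Equiv.prod_comp σ (fun j => 1 + |(mu j).im - (mu (σ i)).im|)
  exact (pow_left_inj₀ (wt_pos _).le (wt_pos _).le two_ne_zero).mp h1

theorem wey_cusp (hMNQ : T_MNQ) {m N : ℕ} [NeZero N] (hm1 : 1 ≤ m) {T : ℕ → Finset (ZM m)}
    {F : Mat m → VN m N → ℂ} {lam : ℕ → ℂ} {mu : Fin m → ℂ} (hF : CuspU m N T F lam mu)
    (σ : Equiv.Perm (Fin m)) : CuspU m N T F lam (mu ∘ σ) :=
  { wey_eig hMNQ hm1 hF.toEigU σ with
    prim := hF.prim
    cusp := hF.cusp }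

/-- the hybrid fourth moment over the spherical forms, with the Plancherel density, without an order
of the parameters -/
def T_GBQ : Prop := ∀ m : ℕ, 1 ≤ m → ∀ ε : ℝ, 0 < ε → ∃ C : ℝ, 0 < C ∧
  ∀ (N : ℕ) [NeZero N] (T : ℕ → Finset (ZM m)) (D : Set (V m)), SysZ m N T D →
  ∀ P : ℝ, 1 ≤ P → ∀ (ι : Type) [Fintype ι] [DecidableEq ι] (F : ι → Mat m → VN m N → ℂ)
    (lam : ι → ℕ → ℂ) (mu : ι → Fin m → ℂ),
    (∀ i, CuspU m N T (F i) (lam i) (mu i) ∧ 1 + ∑ j, ‖mu i j‖ ≤ P) → Orthn D F →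
    ∃ L : ι → ℂ → ℂ, (∀ i, IsL m 1 (lam i) (L i)) ∧
      ∀ J : ι → Finset ℝ, (∀ i, Wsp (J i)) → (∀ i, ∀ t ∈ J i, |t| ≤ P) →
      ∑ i, Wt (mu i) * ∑ t ∈ J i, ‖L i (1 / 2 + t * Complex.I)‖ ^ 4 ≤
        C * ((N : ℝ) * P) ^ ε * (N : ℝ) ^ m * P ^ (m ^ 2)

theorem gbq (hMNQ : T_MNQ) (h : T_GBP) : T_GBQ := by
  intro m hm1 ε hε
  obtain ⟨C, hC, hmain⟩ := h m hm1 ε hε
  refine ⟨C, hC, ?_⟩
  intro N _ T D hS P hP ι _ _ F lam mu hF hO
  let σ : ι → Equiv.Perm (Fin m) := fun i => Tuple.sort (fun j => (mu i j).im)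
  obtain ⟨L, hL, hb⟩ := hmain N T D hS P hP ι F lam (fun i => mu i ∘ σ i) (fun i =>
    ⟨wey_cusp hMNQ hm1 (hF i).1 (σ i), by
      have h1 : ∑ j, ‖(mu i ∘ σ i) j‖ = ∑ j, ‖mu i j‖ :=
        Equiv.sum_comp (σ i) (fun j => ‖mu i j‖)
      rw [h1]
      exact (hF i).2, Tuple.monotone_sort (fun j => (mu i j).im)⟩) hO
  refine ⟨L, hL, fun J hJ ht => ?_⟩
  have h2 := hb J hJ ht
  simpa only [wt_perm] using h2

end Pool.Agent.H47.GHK
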